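import Pool.Agent.W422.GC.Stms

/-! # GC-M1: `b(-1) = 0` -/

set_option autoImplicit false

namespace W125.GC

open MvPolynomial Pool.Agent.H628R4.TP Pool.Agent.W422.GC

variable {N : ℕ}

/-- `f ^ L Φ(s) = f ^ (s + 1) R(s)` with `R(-1)` divisible by `f ^ L` -/
def Good (f : MvPolynomial (Fin N) ℂ) (Φ : ℕ → MvPolynomial (Fin N) ℂ) : Prop :=
  ∃ (L : ℕ) (R : Polynomial (MvPolynomial (Fin N) ℂ)),
    f ^ L ∣ R.eval (((-1 : ℤ) : MvPolynomial (Fin N) ℂ)) ∧
    ∀ s : ℕ, f ^ L * Φ s = f ^ (s + 1) * R.eval (((s : ℤ) : MvPolynomial (Fin N) ℂ))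

lemma good_zero (f : MvPolynomial (Fin N) ℂ) : Good f (fun _ => 0) :=
  ⟨0, 0, by simp, by simp⟩

lemma good_raise (f : MvPolynomial (Fin N) ℂ) (Φ : ℕ → MvPolynomial (Fin N) ℂ) (L k : ℕ)
    (R : Polynomial (MvPolynomial (Fin N) ℂ))
    (h1 : f ^ L ∣ R.eval (((-1 : ℤ) : MvPolynomial (Fin N) ℂ)))
    (h2 : ∀ s : ℕ, f ^ L * Φ s = f ^ (s + 1) * R.eval (((s : ℤ) : MvPolynomial (Fin N) ℂ))) :
    f ^ (L + k) ∣ (Polynomial.C (f ^ k) * R).eval (((-1 : ℤ) : MvPolynomial (Fin N) ℂ)) ∧
    ∀ s : ℕ, f ^ (L + k) * Φ s =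
      f ^ (s + 1) * (Polynomial.C (f ^ k) * R).eval (((s : ℤ) : MvPolynomial (Fin N) ℂ)) := by
  constructor
  · rw [Polynomial.eval_mul, Polynomial.eval_C, pow_add, mul_comm (f ^ L)]
    exact mul_dvd_mul_left _ h1
  · intro s
    rw [Polynomial.eval_mul, Polynomial.eval_C, pow_add]
    linear_combination f ^ k * h2 s

lemma good_add (f : MvPolynomial (Fin N) ℂ) (Φ Ψ : ℕ → MvPolynomial (Fin N) ℂ)
    (h : Good f Φ) (h' : Good f Ψ) : Good f (fun s => Φ s + Ψ s) := by
  obtain ⟨L, R, h1, h2⟩ := h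
  obtain ⟨L', R', h1', h2'⟩ := h'
  obtain ⟨e1, e2⟩ := good_raise f Φ L L' R h1 h2
  obtain ⟨e1', e2'⟩ := good_raise f Ψ L' L R' h1' h2'
  rw [add_comm L' L] at e1'
  refine ⟨L + L', Polynomial.C (f ^ L') * R + Polynomial.C (f ^ L) * R', ?_, ?_⟩
  · rw [Polynomial.eval_add]
    exact dvd_add e1 e1'
  · intro s
    have e3 := e2' s
    rw [add_comm L' L] at e3
    rw [Polynomial.eval_add, mul_add, e2 s, e3, mul_add]

lemma good_mul (f a : MvPolynomial (Fin N) ℂ) (Φ : ℕ → MvPolynomial (Fin N) ℂ)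
    (h : Good f Φ) : Good f (fun s => a * Φ s) := by
  obtain ⟨L, R, h1, h2⟩ := h
  refine ⟨L, Polynomial.C a * R, ?_, ?_⟩
  · rw [Polynomial.eval_mul, Polynomial.eval_C]
    exact Dvd.dvd.mul_left h1 a
  · intro s
    rw [Polynomial.eval_mul, Polynomial.eval_C]
    linear_combination a * h2 s

lemma good_powmul (f : MvPolynomial (Fin N) ℂ) (Φ : ℕ → MvPolynomial (Fin N) ℂ) (m : ℕ)
    (h : Good f Φ) : Good f (fun s => (s : MvPolynomial (Fin N) ℂ) ^ m * Φ s) := by
  obtain ⟨L, R, h1, h2⟩ := h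
  refine ⟨L, Polynomial.X ^ m * R, ?_, ?_⟩
  · rw [Polynomial.eval_mul]
    exact Dvd.dvd.mul_left h1 _
  · intro s
    rw [Polynomial.eval_mul, Polynomial.eval_pow, Polynomial.eval_X]
    have := h2 s
    push_cast at this ⊢
    linear_combination (s : MvPolynomial (Fin N) ℂ) ^ m * this

lemma der_coeff (i : Fin N) (R : Polynomial (MvPolynomial (Fin N) ℂ)) :
    ∃ R' : Polynomial (MvPolynomial (Fin N) ℂ), ∀ c : ℤ,
      R'.eval ((c : MvPolynomial (Fin N) ℂ)) = pderiv i (R.eval ((c : MvPolynomial (Fin N) ℂ))) := by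
  induction R using Polynomial.induction_on' with
  | add p q hp hq =>
    obtain ⟨p', hp⟩ := hp
    obtain ⟨q', hq⟩ := hq
    exact ⟨p' + q', fun c => by rw [Polynomial.eval_add, Polynomial.eval_add, map_add, hp, hq]⟩
  | monomial n a =>
    refine ⟨Polynomial.monomial n (pderiv i a), fun c => ?_⟩
    rw [Polynomial.eval_monomial, Polynomial.eval_monomial, Derivation.leibniz]
    have : pderiv i ((c : MvPolynomial (Fin N) ℂ) ^ n) = 0 := by
      rw [← Int.cast_pow]
      exact Derivation.map_intCast _ _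
    rw [this, smul_zero, zero_add, smul_eq_mul, mul_comm]

lemma mul_der_pow (f : MvPolynomial (Fin N) ℂ) (i : Fin N) (n : ℕ) :
    f * pderiv i (f ^ n) = (n : MvPolynomial (Fin N) ℂ) * f ^ n * pderiv i f := by
  rw [Derivation.leibniz_pow]
  rcases n with _ | n
  · simp
  · simp only [Nat.add_sub_cancel, smul_eq_mul, nsmul_eq_mul]
    ring

lemma good_der (f : MvPolynomial (Fin N) ℂ) (Φ : ℕ → MvPolynomial (Fin N) ℂ) (i : Fin N)
    (h : Good f Φ) : Good f (fun s => pderiv i (Φ s)) := by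
  obtain ⟨L, R, ⟨q, hq⟩, h2⟩ := h
  obtain ⟨R', hR'⟩ := der_coeff i R
  refine ⟨L + 1, (Polynomial.X + 1 - Polynomial.C (L : MvPolynomial (Fin N) ℂ)) *
    Polynomial.C (pderiv i f) * R + Polynomial.C f * R', ?_, ?_⟩
  · refine ⟨pderiv i q, ?_⟩
    simp only [Polynomial.eval_add, Polynomial.eval_mul, Polynomial.eval_sub, Polynomial.eval_X,
      Polynomial.eval_one, Polynomial.eval_C]
    rw [hR', hq, Derivation.leibniz, smul_eq_mul, smul_eq_mul]
    have := mul_der_pow f i L
    push_cast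
    linear_combination q * this
  · intro s
    simp only [Polynomial.eval_add, Polynomial.eval_mul, Polynomial.eval_sub, Polynomial.eval_X,
      Polynomial.eval_one, Polynomial.eval_C]
    rw [hR']
    have e1 := congrArg (pderiv i) (h2 s)
    rw [Derivation.leibniz, Derivation.leibniz] at e1
    simp only [smul_eq_mul] at e1
    have e2 := mul_der_pow f i L
    have e3 := mul_der_pow f i (s + 1)
    have e4 := h2 s
    push_cast at e1 e2 e3 e4 ⊢
    linear_combination f * e1 - Φ s * e2 +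
      Polynomial.eval (s : MvPolynomial (Fin N) ℂ) R * e3 - (L : MvPolynomial (Fin N) ℂ) *
      pderiv i f * e4

lemma good_weyl (f : MvPolynomial (Fin N) ℂ) (P : Module.End ℂ (MvPolynomial (Fin N) ℂ))
    (hP : P ∈ weylS (Fin N)) : Good f (fun s => P (f ^ (s + 1))) := by
  have h1 : P ∈ Subalgebra.toSubmodule (weylS (Fin N)) := hP
  unfold weylS at h1
  rw [Algebra.adjoin_eq_span] at h1
  clear hP
  induction h1 using Submodule.span_induction with
  | mem x hx =>
    induction hx using Submonoid.closure_induction_left with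
    | one =>
      refine ⟨0, 1, by simp, fun s => ?_⟩
      simp
    | mul_left x hx y hy ih =>
      rcases hx with ⟨i, rfl⟩ | ⟨i, rfl⟩
      · exact good_mul f (X i) _ ih
      · exact good_der f _ i ih
  | zero => exact good_zero f
  | add x y _ _ hx hy => exact good_add f _ _ hx hy
  | smul a x _ hx =>
    have := good_mul f (C a) _ hx
    simp only [← smul_eq_C_mul] at this
    exact this

lemma good_sum (f : MvPolynomial (Fin N) ℂ) (P : ℕ →₀ weylS (Fin N)) :
    Good f (fun s => P.sum fun m Q => ((s : ℂ) ^ m) •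
      (Q : Module.End ℂ (MvPolynomial (Fin N) ℂ)) (f ^ (s + 1))) := by
  induction P using Finsupp.induction_linear with
  | zero =>
    simp only [Finsupp.sum_zero_index]
    exact good_zero f
  | add P Q hP hQ =>
    have := good_add f _ _ hP hQ
    convert this using 2 with s
    apply Finsupp.sum_add_index'
    · intro m
      simp
    · intro m a b
      simp
  | single m Q =>
    have h := good_powmul f _ m (good_weyl f Q Q.2)
    convert h using 2 with s
    rw [Finsupp.sum_single_index (by simp), smul_eq_C_mul]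
    simp

theorem main : S_M1 := by
  intro N g f b x hf hfx hgx hFE
  obtain ⟨P, hP⟩ := hFE
  obtain ⟨L, R, ⟨q, hq⟩, h2⟩ := good_sum f P
  have h3 : ∀ s : ℕ, f ^ L * g * C (b.eval (s : ℂ)) =
      f * R.eval (((s : ℤ) : MvPolynomial (Fin N) ℂ)) := by
    intro s
    have e1 := h2 s
    have e2 := hP s
    simp only at e1
    rw [← e2] at e1
    apply mul_left_cancel₀ (pow_ne_zero s hf)
    linear_combination e1
  set bA : Polynomial (MvPolynomial (Fin N) ℂ) := b.map C with hbA
  have hev : ∀ c : ℤ, bA.eval ((c : MvPolynomial (Fin N) ℂ)) = C (b.eval (c : ℂ)) := by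
    intro c
    rw [hbA]
    have : ((c : MvPolynomial (Fin N) ℂ)) = C (c : ℂ) := by simp
    rw [this, Polynomial.eval_map, Polynomial.eval₂_at_apply]
  have h4 : Polynomial.C (f ^ L * g) * bA = Polynomial.C f * R := by
    apply Polynomial.eq_of_infinite_eval_eq
    refine Set.Infinite.mono ?_ (Set.infinite_range_of_injective
      (Nat.cast_injective (R := MvPolynomial (Fin N) ℂ)))
    rintro _ ⟨s, rfl⟩
    have e1 := h3 s
    have e2 := hev s
    push_cast at e1 e2
    simp only [Set.mem_ofPred_eq, Polynomial.eval_mul, Polynomial.eval_C]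
    rw [e2, e1]
  have h5 := congrArg (Polynomial.eval (((-1 : ℤ) : MvPolynomial (Fin N) ℂ))) h4
  rw [Polynomial.eval_mul, Polynomial.eval_mul, Polynomial.eval_C, Polynomial.eval_C, hev, hq] at h5
  have h6 : g * C (b.eval ((-1 : ℤ) : ℂ)) = f * q := by
    apply mul_left_cancel₀ (pow_ne_zero L hf)
    linear_combination h5
  have h7 := congrArg (eval x) h6
  rw [map_mul, map_mul, hfx, zero_mul, eval_C] at h7
  have h8 := (mul_eq_zero.mp h7).resolve_left hgx
  simpa using h8

end W125.GC
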